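import Pool.Agent.W516.MTP.Main

/-!
# The motivic Galois group of mixed Tate motives over `ℤ` is generated by the torus and the
single-valued element
-/

set_option autoImplicit false

namespace Pool.Agent.Results.MP_446dfa_ag.SingleValuedGenerates

open Pool.Agent.W516.MTZ Pool.Agent.W516.MTH Pool.Agent.W516.MTP

theorem result (m X : Type) [Fintype m] [DecidableEq m] [Fintype X] [DecidableEq X]
    (M : Motive m X) (p : (Matrix m m ℂ)ˣ) (hp : p ∈ M.gp)
    (hdeg : ∀ x, Odd (M.deg x) ∧ 3 ≤ M.deg x) (hinj : Function.Injective M.deg)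
    (hpi : (p : Matrix m m ℂ) M.t M.t = 2 * Real.pi * Complex.I)
    (hzeta : ∀ x, (p : Matrix m m ℂ) M.o (M.s x) = riemannZeta (M.deg x)) :
    M.gp = Subgroup.closure
      ({g : (Matrix m m ℂ)ˣ | ∃ μ : ℂ, μ ≠ 0 ∧
          (g : Matrix m m ℂ) = Matrix.diagonal fun i => μ ^ M.wt i} ∪
        {g : (Matrix m m ℂ)ˣ | (g : Matrix m m ℂ) =
          ((p⁻¹ : (Matrix m m ℂ)ˣ) : Matrix m m ℂ) * (p : Matrix m m ℂ).map (starRingEnd ℂ)}) := by
  rw [gp_eq_closure hp cj hinj (conj_ne hdeg hpi hzeta)]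
  congr 1
  congr 1
  · ext g
    constructor
    · rintro ⟨μ, rfl⟩
      exact ⟨μ, μ.ne_zero, rfl⟩
    · rintro ⟨μ, hμ, hg⟩
      exact ⟨Units.mk0 μ hμ, Units.ext hg⟩
  · ext g
    constructor
    · intro hg
      rw [Set.mem_singleton_iff] at hg
      rw [hg]
      rfl
    · intro hg
      exact Units.ext hg

end Pool.Agent.Results.MP_446dfa_ag.SingleValuedGenerates
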